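import Pool.Agent.H815.QC.Stm2

set_option autoImplicit false

/-!
# Project QC of helper815: statement A3 (the Coxeter group of the blow-up of the pentagon as a graph product)
-/

namespace Pool.Agent.H630.QC

open Pool.Agent.Y110.FJ Pool.Agent.T2H65.GP Pool.Agent.H815.QC

theorem two_cases : ∀ z : Multiplicative (ZMod 2), z = 1 ∨ z = Multiplicative.ofAdd 1 := by decide

theorem two_ne : (Multiplicative.ofAdd 1 : Multiplicative (ZMod 2)) ≠ 1 := by decide

theorem two_mul : (Multiplicative.ofAdd 1 : Multiplicative (ZMod 2)) * Multiplicative.ofAdd 1 = 1 := by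
  decide

/-- the homomorphism given by an element of square one -/
def invHom {P : Type} [Group P] (x : P) (hx : x * x = 1) : Multiplicative (ZMod 2) →* P where
  toFun z := if z = 1 then 1 else x
  map_one' := if_pos rfl
  map_mul' a b := by
    rcases two_cases a with rfl | rfl <;> rcases two_cases b with rfl | rfl
    · rw [mul_one, if_pos rfl, mul_one]
    · rw [one_mul, if_neg two_ne, if_pos rfl, one_mul]
    · rw [mul_one, if_neg two_ne, if_pos rfl, mul_one]
    · rw [two_mul, if_pos rfl, if_neg two_ne, hx]

theorem invHom_one {P : Type} [Group P] (x : P) (hx : x * x = 1) :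
    invHom x hx (Multiplicative.ofAdd 1) = x := by
  show (if (Multiplicative.ofAdd 1 : Multiplicative (ZMod 2)) = 1 then 1 else x) = x
  exact if_neg two_ne

theorem g3_sq (i : Fin 3) : g3 i * g3 i = 1 := by
  unfold g3
  rw [← map_mul, two_mul, map_one]

/-- the images of the generators -/
def fA (a : Fin (5 * 3)) : GrP C5 (fun _ => G3) :=
  GrP.of C5 (fun _ => G3) (finProdFinEquiv.symm a).1 (g3 (finProdFinEquiv.symm a).2)

theorem fA_sq (a : Fin (5 * 3)) : fA a * fA a = 1 := by
  unfold fA
  rw [← map_mul, g3_sq, map_one]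

theorem fA_rel : ∀ r ∈ relC ΓF, FreeGroup.lift fA r = 1 := by
  rintro r (⟨a, rfl⟩ | ⟨a, b, hab, rfl⟩)
  · rw [map_mul, FreeGroup.lift_apply_of, fA_sq]
  · have hc : Commute (fA a) (fA b) := of_comm (Λ := C5) (B := fun _ => G3) hab _ _
    rw [map_pow, map_mul, FreeGroup.lift_apply_of, FreeGroup.lift_apply_of, hc.mul_pow, pow_two, pow_two,
      fA_sq, fA_sq, mul_one]

/-- the homomorphism to the graph product -/
noncomputable def phi : PresentedGroup (relC ΓF) →* GrP C5 (fun _ => G3) :=
  PresentedGroup.toGroup fA_rel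

theorem phi_of (a : Fin (5 * 3)) : phi (PresentedGroup.of a) = fA a :=
  PresentedGroup.toGroup.of fA_rel

theorem of_sq (a : Fin (5 * 3)) :
    (PresentedGroup.of a : PresentedGroup (relC ΓF)) * PresentedGroup.of a = 1 := by
  have h : PresentedGroup.mk (relC ΓF) (FreeGroup.of a * FreeGroup.of a) = 1 :=
    (QuotientGroup.eq_one_iff _).2 (Subgroup.subset_normalClosure (Or.inl ⟨a, rfl⟩))
  rw [map_mul] at h
  exact h

theorem of_of_comm (a b : Fin (5 * 3)) (hab : ΓF.Adj a b) :
    (PresentedGroup.of a : PresentedGroup (relC ΓF)) * PresentedGroup.of b =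
      PresentedGroup.of b * PresentedGroup.of a := by
  have h : PresentedGroup.mk (relC ΓF) ((FreeGroup.of a * FreeGroup.of b) ^ 2) = 1 :=
    (QuotientGroup.eq_one_iff _).2 (Subgroup.subset_normalClosure (Or.inr ⟨a, b, hab, rfl⟩))
  rw [map_pow, map_mul] at h
  have h1 : ((PresentedGroup.of a : PresentedGroup (relC ΓF)) * PresentedGroup.of b) *
      (PresentedGroup.of a * PresentedGroup.of b) = 1 := by
    rw [← pow_two]
    exact h
  have ha := of_sq a
  have hb := of_sq b
  generalize (PresentedGroup.of a : PresentedGroup (relC ΓF)) = x at *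
  generalize (PresentedGroup.of b : PresentedGroup (relC ΓF)) = y at *
  have hx : x⁻¹ = x := inv_eq_of_mul_eq_one_left ha
  have hy : y⁻¹ = y := inv_eq_of_mul_eq_one_left hb
  have h2 : (x * y)⁻¹ = x * y := inv_eq_of_mul_eq_one_left h1
  rw [mul_inv_rev, hx, hy] at h2
  exact h2.symm

/-- the homomorphism from the vertex group -/
noncomputable def hv (v : Fin 5) : G3 →* PresentedGroup (relC ΓF) :=
  Monoid.CoprodI.lift fun i => invHom (PresentedGroup.of (finProdFinEquiv (v, i)))
    (of_sq (finProdFinEquiv (v, i)))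

theorem hv_of (v : Fin 5) (i : Fin 3) (z : Multiplicative (ZMod 2)) :
    hv v (Monoid.CoprodI.of (M := fun _ : Fin 3 => Multiplicative (ZMod 2)) (i := i) z) =
      invHom (PresentedGroup.of (finProdFinEquiv (v, i))) (of_sq (finProdFinEquiv (v, i))) z :=
  Monoid.CoprodI.lift_of _ _

theorem hv_g3 (v : Fin 5) (i : Fin 3) :
    hv v (g3 i) = PresentedGroup.of (finProdFinEquiv (v, i)) := by
  unfold g3
  rw [hv_of, invHom_one]

theorem hv_comm (v w : Fin 5) (h : C5.Adj v w) (a b : G3) : hv v a * hv w b = hv w b * hv v a := by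
  have h1 : ∀ (i j : Fin 3) (y z : Multiplicative (ZMod 2)),
      invHom (PresentedGroup.of (finProdFinEquiv (v, i)) : PresentedGroup (relC ΓF))
        (of_sq (finProdFinEquiv (v, i))) y *
      invHom (PresentedGroup.of (finProdFinEquiv (w, j)) : PresentedGroup (relC ΓF))
        (of_sq (finProdFinEquiv (w, j))) z =
      invHom (PresentedGroup.of (finProdFinEquiv (w, j)) : PresentedGroup (relC ΓF))
        (of_sq (finProdFinEquiv (w, j))) z *
      invHom (PresentedGroup.of (finProdFinEquiv (v, i)) : PresentedGroup (relC ΓF))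
        (of_sq (finProdFinEquiv (v, i))) y := by
    intro i j y z
    rcases two_cases y with rfl | rfl
    · rw [map_one, one_mul, mul_one]
    · rcases two_cases z with rfl | rfl
      · rw [map_one (invHom (PresentedGroup.of (finProdFinEquiv (w, j)) : PresentedGroup (relC ΓF))
          (of_sq (finProdFinEquiv (w, j)))), one_mul, mul_one]
      · rw [invHom_one, invHom_one]
        apply of_of_comm
        show C5.Adj (finProdFinEquiv.symm (finProdFinEquiv (v, i))).1
          (finProdFinEquiv.symm (finProdFinEquiv (w, j))).1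
        rw [Equiv.symm_apply_apply, Equiv.symm_apply_apply]
        exact h
  induction a using Monoid.CoprodI.induction_on with
  | one => rw [map_one, one_mul, mul_one]
  | of i y =>
    induction b using Monoid.CoprodI.induction_on with
    | one => rw [map_one, one_mul, mul_one]
    | of j z =>
      rw [hv_of, hv_of]
      exact h1 i j y z
    | mul b b' ih ih' =>
      rw [map_mul, ← mul_assoc, ih, mul_assoc, ih', mul_assoc]
  | mul a a' ih ih' =>
    rw [map_mul, mul_assoc, ih', ← mul_assoc, ih, mul_assoc]

/-- the homomorphism from the graph product -/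
noncomputable def psi : GrP C5 (fun _ => G3) →* PresentedGroup (relC ΓF) :=
  glift (Λ := C5) (B := fun _ => G3) hv fun v w h a b => hv_comm v w h a b

theorem psi_of (v : Fin 5) (b : G3) : psi (GrP.of C5 (fun _ => G3) v b) = hv v b :=
  glift_of (Λ := C5) (B := fun _ => G3) hv _ v b

theorem psi_phi : psi.comp phi = MonoidHom.id _ := by
  apply PresentedGroup.ext
  intro a
  show psi (phi (PresentedGroup.of a)) = PresentedGroup.of a
  rw [phi_of]
  unfold fA
  rw [psi_of, hv_g3]
  rw [Prod.mk.eta, Equiv.apply_symm_apply]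

theorem phi_psi : phi.comp psi = MonoidHom.id _ := by
  apply ghom_ext
  intro v b
  show phi (psi (GrP.of C5 (fun _ => G3) v b)) = GrP.of C5 (fun _ => G3) v b
  rw [psi_of]
  have h : phi.comp (hv v) = GrP.of C5 (fun _ => G3) v := by
    apply Monoid.CoprodI.ext_hom
    intro i
    apply MonoidHom.ext
    intro z
    show phi (hv v (Monoid.CoprodI.of z)) = GrP.of C5 (fun _ => G3) v (Monoid.CoprodI.of z)
    rcases two_cases z with rfl | rfl
    · rw [map_one, map_one, map_one, map_one]
    · have e : (Monoid.CoprodI.of (M := fun _ : Fin 3 => Multiplicative (ZMod 2)) (i := i)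
          (Multiplicative.ofAdd 1)) = g3 i := rfl
      rw [e, hv_g3, phi_of]
      unfold fA
      rw [Equiv.symm_apply_apply]
  exact DFunLike.congr_fun h b

theorem A3_proof : S_A3 :=
  ⟨MonoidHom.toMulEquiv phi psi psi_phi phi_psi, fun a => phi_of a⟩

end Pool.Agent.H630.QC
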